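import Pool.Agent.U106.TR.Exc
import Pool.Agent.U106.FC.ErgEx

/-!
Reduction of the value of an integral on atomless measures invariant under `×p`, `×q` to the ergodic
ones.
-/

set_option autoImplicit false

open MeasureTheory Filter Topology Set ProbabilityTheory

namespace Pool.Agent.U785.TP

open Pool.Agent.U106.FC Pool.Agent.U106.TR

/-- Reduction to ergodic measures. -/
theorem erg {p q : ℕ} (hp : 2 ≤ p) {f : UnitAddCircle → ℝ} {C B : ℝ}
    (hf : Measurable f) (hB : ∀ x, |f x| ≤ B) (hv : ∫ x, f x = C)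
    (h : ∀ κ : Measure UnitAddCircle, Exceptional p q κ → ∫ x, f x ∂κ = C)
    {μ : Measure UnitAddCircle} [IsProbabilityMeasure μ] (hat : ∀ x, μ {x} = 0)
    (hS : MeasurePreserving (fun x : UnitAddCircle => p • x) μ μ)
    (hT : MeasurePreserving (fun x : UnitAddCircle => q • x) μ μ) : ∫ x, f x ∂μ = C := by
  have hS' : MeasurePreserving (cm p) μ μ := hS
  have hT' : MeasurePreserving (cm q) μ μ := hT
  have hint : Integrable f μ := by
    refine Integrable.of_bound hf.aestronglyMeasurable B (Eventually.of_forall fun x => ?_)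
    exact hB x
  have h1 := condExp_ae_eq_integral_condExpKernel (J_le hS' hT') hint
  have h2 : ∫ x, (μ[f | J hS' hT']) x ∂μ = ∫ x, f x ∂μ := integral_condExp (J_le hS' hT')
  rw [← h2]
  have h3 : (μ[f | J hS' hT']) =ᵐ[μ] fun _ => C := by
    filter_upwards [h1, comp_inv hS' hT', comp_ergodic hS' hT', comp_atomless hS' hT' hp hat] with
      x hx1 hx2 hx3 hx4
    rw [hx1]
    change ∫ y, f y ∂(comp hS' hT' x) = C
    by_cases hvol : comp hS' hT' x = volume
    · rw [hvol, hv]
    · exact h _ ⟨inferInstance, hx4, hx2.1, hx2.2, hx3, hvol⟩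
  rw [integral_congr_ae h3, integral_const]
  simp

end Pool.Agent.U785.TP
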