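import Pool.Agent.U785.TP.A

/-!
Traces and the spectral measure of the unitary `u`, the translation by `1`.
-/

set_option autoImplicit false

open MeasureTheory Filter Topology Set

namespace Pool.Agent.U785.TP

open Pool.Agent.U106.FC Pool.Agent.U106.TR

/-- The trace has mean square zero on the powers of the translation by `1`. -/
def MeanZero (φ : G → ℂ) : Prop :=
  ∀ u : G, (∀ x : ℚ, (u : Equiv.Perm ℚ) x = x + 1) →
    Tendsto (fun N : ℕ => (N : ℝ)⁻¹ * ∑ n ∈ Finset.range N, ‖φ (u ^ n)‖ ^ 2) atTop (𝓝 0)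

/-- `μ` is the spectral measure of the unitary of the translation `u` by `1` with respect to the trace
`φ`: the probability measure on the circle with the Fourier coefficients `φ (u ^ n)`. -/
def Spectral (φ : G → ℂ) (μ : Measure UnitAddCircle) : Prop :=
  IsProbabilityMeasure μ ∧ ∀ u : G, (∀ x : ℚ, (u : Equiv.Perm ℚ) x = x + 1) →
    ∀ n : ℤ, ∫ x, (fourier n x : ℂ) ∂μ = φ (u ^ n)

lemma pow_elt {u : G} (hu : ∀ x : ℚ, (u : Equiv.Perm ℚ) x = x + 1) (n : ℕ) :
    sl (u ^ n) = 1 ∧ of (u ^ n) = n := by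
  have h1 : sl u = 1 := (trans_iff u).1 ⟨1, hu⟩
  have h2 : of u = 1 := by rw [of, hu]; ring
  induction n with
  | zero => simp [sl_one, of_one]
  | succ k ih =>
    rw [pow_succ, sl_mul, of_mul, h1, h2, ih.1, ih.2]
    constructor
    · norm_num
    · push_cast; ring

lemma zpow_elt {u : G} (hu : ∀ x : ℚ, (u : Equiv.Perm ℚ) x = x + 1) (n : ℤ) :
    sl (u ^ n) = 1 ∧ of (u ^ n) = n := by
  obtain ⟨k, rfl | rfl⟩ := n.eq_nat_or_neg
  · rw [zpow_natCast]
    refine ⟨(pow_elt hu k).1, ?_⟩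
    rw [(pow_elt hu k).2]; simp
  · rw [zpow_neg, zpow_natCast, sl_inv, of_inv, (pow_elt hu k).1, (pow_elt hu k).2]
    constructor
    · norm_num
    · push_cast; ring

lemma exists_unit : ∃ u : G, ∀ x : ℚ, (u : Equiv.Perm ℚ) x = x + 1 := by
  obtain ⟨u, h1, h2⟩ := exists_elt 1
  refine ⟨u, fun x => ?_⟩
  rw [gapply, h1, h2]; push_cast; ring

/-- The spectral measure is unique. -/
theorem spectral_unique {φ : G → ℂ} {μ ν : Measure UnitAddCircle} (hμ : Spectral φ μ)
    (hν : Spectral φ ν) : μ = ν := by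
  obtain ⟨u, hu⟩ := exists_unit
  have := hμ.1
  have := hν.1
  refine Pool.Agent.R202.ext_fourier fun n => ?_
  rw [hμ.2 u hu n, hν.2 u hu n]

/-- The spectral measure of a trace exists and is invariant. -/
theorem exists_spectral {φ : G → ℂ} (hφ : φ ∈ Traces) : ∃ μ : Measure UnitAddCircle,
    Spectral φ μ ∧ Inv μ ∧ ((∀ x, μ {x} = 0) → φ = traceOf μ) := by
  obtain ⟨μ, hp, hi, ht, hv⟩ := exists_meas hφ
  refine ⟨μ, ⟨hp, fun u hu n => ?_⟩, hi, hv⟩
  have h1 := zpow_elt hu n
  rw [ht _ h1.1, co_eq hi h1.1 h1.2]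
  rfl

theorem spectral_traceOf {μ : Measure UnitAddCircle} [hp : IsProbabilityMeasure μ] (hi : Inv μ) :
    Spectral (traceOf μ) μ := by
  refine ⟨hp, fun u hu n => ?_⟩
  have h1 := zpow_elt hu n
  rw [co_eq hi h1.1 h1.2]
  rfl

/-- A spectral measure is atomless iff the trace has mean square zero. -/
theorem meanZero_iff {φ : G → ℂ} {μ : Measure UnitAddCircle} (h : Spectral φ μ) :
    MeanZero φ ↔ ∀ x, μ {x} = 0 := by
  have hp := h.1
  have key : ∀ u : G, (∀ x : ℚ, (u : Equiv.Perm ℚ) x = x + 1) → ∀ n : ℕ, φ (u ^ n) = co μ n := by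
    intro u hu n
    have := h.2 u hu n
    rw [zpow_natCast] at this
    exact this.symm
  constructor
  · intro hm
    obtain ⟨u, hu⟩ := exists_unit
    apply atomless_of_wiener
    refine (hm u hu).congr fun N => ?_
    congr 1
    exact Finset.sum_congr rfl fun n _ => by rw [key u hu]
  · intro hat u hu
    refine (wiener_atomless hat).congr fun N => ?_
    congr 1
    exact Finset.sum_congr rfl fun n _ => by rw [key u hu]

/-- The traces of mean square zero and the atomless invariant measures. -/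
theorem mean_iff (P : (G → ℂ) → Measure UnitAddCircle → Prop) :
    (∀ φ ∈ Traces, MeanZero φ → ∀ μ, Spectral φ μ → P φ μ) ↔
      ∀ μ : Measure UnitAddCircle, IsProbabilityMeasure μ → (∀ x, μ {x} = 0) → Inv μ →
        P (traceOf μ) μ := by
  constructor
  · intro h μ hp hat hi
    exact h _ (traceOf_mem hi) ((meanZero_iff (spectral_traceOf hi)).2 hat) μ (spectral_traceOf hi)
  · intro h φ hφ hm μ hμ
    obtain ⟨ν, h1, h2, h3⟩ := exists_spectral hφ
    obtain rfl := spectral_unique hμ h1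
    have hat := (meanZero_iff hμ).1 hm
    rw [h3 hat]
    exact h μ hμ.1 hat h2

/-- The exceptional traces and the exceptional measures. -/
theorem exc_iff (P : (G → ℂ) → Measure UnitAddCircle → Prop) :
    (∀ φ, Exc φ → ∀ μ, Spectral φ μ → P φ μ) ↔
      ∀ μ : Measure UnitAddCircle, Exceptional 2 3 μ → P (traceOf μ) μ := by
  constructor
  · intro h μ hμ
    have hp := hμ.1
    exact h _ (exc_traceOf hμ) μ (spectral_traceOf ⟨hμ.2.2.1, hμ.2.2.2.1⟩)
  · intro h φ hφ μ hμ
    obtain ⟨κ, hκ, rfl⟩ := exc_meas hφ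
    have hp := hκ.1
    obtain rfl := spectral_unique hμ (spectral_traceOf ⟨hκ.2.2.1, hκ.2.2.2.1⟩)
    exact h μ hκ

/-- Q1 and Furstenberg's conjecture. -/
theorem q1_iff : (∀ φ ∈ Set.extremePoints ℝ Traces, φ = reg ∨ FinDim φ) ↔
    ∀ μ : Measure UnitAddCircle, IsProbabilityMeasure μ → (∀ x, μ {x} = 0) → Inv μ →
      μ = volume := by
  constructor
  · intro h μ hp hat hi
    by_contra hne
    obtain ⟨κ, hκ⟩ := exists_exceptional (p := 2) (q := 3) le_rfl hat hi.1 hi.2 hne
    obtain ⟨h1, h2, h3⟩ := exc_traceOf hκ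
    rcases h _ h1 with h4 | h4
    · exact h2 h4
    · exact h3 h4
  · intro h φ hφ
    by_contra hcon
    push Not at hcon
    obtain ⟨κ, hκ, -⟩ := exc_meas (φ := φ) ⟨hφ, hcon.1, hcon.2⟩
    exact hκ.2.2.2.2.2 (h κ hκ.1 hκ.2.1 ⟨hκ.2.2.1, hκ.2.2.2.1⟩)

lemma co_conj (μ : Measure UnitAddCircle) (n : ℤ) : co μ (-n) = (starRingEnd ℂ) (co μ n) := by
  unfold co
  rw [← integral_conj]
  congr 1
  funext x
  exact fourier_neg

/-- Real traces and symmetric measures. -/
theorem real_iff {μ : Measure UnitAddCircle} [IsProbabilityMeasure μ] (hi : Inv μ) :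
    (∀ g : G, (traceOf μ g).im = 0) ↔ μ.map (fun x => -x) = μ := by
  have hpm : IsProbabilityMeasure (μ.map (fun x => -x)) :=
    Measure.isProbabilityMeasure_map measurable_neg.aemeasurable
  have hneg : ∀ n : ℤ, ∫ x, (fourier n x : ℂ) ∂(μ.map (fun x => -x)) = co μ (-n) := by
    intro n
    rw [integral_map measurable_neg.aemeasurable
      (fourier n).continuous.aestronglyMeasurable]
    unfold co
    congr 1
    funext x
    rw [fourier_apply, fourier_apply, zsmul_neg, neg_zsmul]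
  constructor
  · intro h
    refine Pool.Agent.R202.ext_fourier fun n => ?_
    rw [hneg, co_conj]
    obtain ⟨g, hg1, hg2⟩ := exists_elt n
    have h1 := h g
    rw [co_eq hi hg1 hg2] at h1
    exact Complex.conj_eq_iff_im.2 h1
  · intro h g
    rw [traceOf]
    split_ifs with hg
    · obtain ⟨n, k, hr⟩ := of_six g
      rw [val_eq hi hr]
      refine Complex.conj_eq_iff_im.1 ?_
      rw [← co_conj, ← hneg, h]
      rfl
    · simp

end Pool.Agent.U785.TP
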