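import Pool.Agent.U785.TP.B
import Pool.Agent.U106.FC.Fibre
import Pool.Agent.U798.FA.F

/-!
Spectral measures of the translations with respect to the traces.
-/

set_option autoImplicit false

open MeasureTheory Filter Topology Set

namespace Pool.Agent.U785.TP

open Pool.Agent.U106.FC Pool.Agent.U106.TR
open Pool.Agent.U798.FA (Joint arc dil Sym dil_dil dil_vol vol_arc meas_arc dil_fourier inv_dil
  joint_dil noAtoms_dil)

/-- `μ` is the spectral measure of the unitary of `g ∈ G` with respect to the trace `φ`: the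
probability measure on the circle with the Fourier coefficients `φ (g ^ n)`. -/
def SpectralAt (φ : G → ℂ) (g : G) (μ : Measure UnitAddCircle) : Prop :=
  IsProbabilityMeasure μ ∧ ∀ n : ℤ, ∫ x, (fourier n x : ℂ) ∂μ = φ (g ^ n)

theorem at_unique {φ : G → ℂ} {g : G} {μ ν : Measure UnitAddCircle} (hμ : SpectralAt φ g μ)
    (hν : SpectralAt φ g ν) : μ = ν := by
  have := hμ.1
  have := hν.1
  exact Pool.Agent.R202.ext_fourier fun n => by rw [hμ.2, hν.2]

lemma trans_zpow {g : G} (hg : sl g = 1) (m : ℤ) : sl (g ^ m) = 1 ∧ of (g ^ m) = m * of g := by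
  have key : ∀ k : ℕ, sl (g ^ k) = 1 ∧ of (g ^ k) = k * of g := by
    intro k
    induction k with
    | zero => simp [sl_one, of_one]
    | succ k ih =>
      rw [pow_succ, sl_mul, of_mul, hg, ih.1, ih.2]
      constructor
      · norm_num
      · push_cast; ring
  obtain ⟨k, rfl | rfl⟩ := m.eq_nat_or_neg
  · rw [zpow_natCast]
    refine ⟨(key k).1, ?_⟩
    rw [(key k).2]; simp
  · rw [zpow_neg, zpow_natCast, sl_inv, of_inv, (key k).1, (key k).2]
    constructor
    · norm_num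
    · push_cast; ring

theorem at_traceOf {μ : Measure UnitAddCircle} [IsProbabilityMeasure μ] (hi : Inv μ) {g : G}
    {n : ℤ} {k : ℕ} (h1 : sl g = 1) (h2 : of g = n / 6 ^ k) :
    SpectralAt (traceOf μ) g (dil n μ) := by
  refine ⟨inferInstance, fun m => ?_⟩
  have h3 := trans_zpow h1 m
  rw [dil_fourier, traceOf, if_pos h3.1, h3.2, h2,
    val_eq hi (n := n * m) (k := k) (by push_cast; ring)]
  rfl

/-- Existence and uniqueness. -/
theorem exists_at {φ : G → ℂ} (hφ : φ ∈ Traces) {g : G} (hg : Trans g) :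
    ∃! μ : Measure UnitAddCircle, SpectralAt φ g μ := by
  obtain ⟨μ, hp, hi, ht, -⟩ := exists_meas hφ
  have h1 := (trans_iff g).1 hg
  obtain ⟨n, k, hr⟩ := of_six g
  refine ⟨dil n μ, ⟨inferInstance, fun m => ?_⟩, fun ν hν => ?_⟩
  · rw [(at_traceOf hi h1 hr).2 m, ht _ (trans_zpow h1 m).1]
  · refine at_unique hν ⟨inferInstance, fun m => ?_⟩
    rw [(at_traceOf hi h1 hr).2 m, ht _ (trans_zpow h1 m).1]

lemma joint_iff (μ : Measure UnitAddCircle) :
    Joint 2 3 μ ↔ IsProbabilityMeasure μ ∧ (∀ x, μ {x} = 0) ∧ Inv μ :=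
  ⟨fun h => ⟨h.1, fun x => h.2.1.measure_singleton x, h.2.2.1, h.2.2.2⟩,
    fun h => ⟨h.1, ⟨h.2.1⟩, h.2.2.1, h.2.2.2⟩⟩

lemma exc_joint {μ : Measure UnitAddCircle} (h : Exceptional 2 3 μ) : Joint 2 3 μ :=
  ⟨h.1, ⟨h.2.1⟩, h.2.2.1, h.2.2.2.1⟩

theorem mean_at (P : Measure UnitAddCircle → Prop) {g : G} {n : ℤ} {k : ℕ}
    (h1 : sl g = 1) (h2 : of g = n / 6 ^ k) :
    (∀ φ ∈ Traces, MeanZero φ → ∀ μ, SpectralAt φ g μ → P μ) ↔
      ∀ μ : Measure UnitAddCircle, Joint 2 3 μ → P (dil n μ) := by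
  have key := mean_iff (fun φ μ => ∀ ν, SpectralAt φ g ν → P ν)
  constructor
  · intro h μ hμ
    rw [joint_iff] at hμ
    have := hμ.1
    exact key.1 (fun φ h3 h4 _ _ => h φ h3 h4) μ hμ.1 hμ.2.1 hμ.2.2 _ (at_traceOf hμ.2.2 h1 h2)
  · intro h φ hφ hm
    obtain ⟨μ, hμ, -, -⟩ := exists_spectral hφ
    refine key.2 (fun μ m1 m2 m3 ν hν => ?_) φ hφ hm μ hμ
    rw [at_unique hν (at_traceOf m3 h1 h2)]
    exact h μ ((joint_iff μ).2 ⟨m1, m2, m3⟩)

theorem exc_at (P : Measure UnitAddCircle → Prop) {g : G} {n : ℤ} {k : ℕ}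
    (h1 : sl g = 1) (h2 : of g = n / 6 ^ k) :
    (∀ φ, Exc φ → ∀ μ, SpectralAt φ g μ → P μ) ↔
      ∀ μ : Measure UnitAddCircle, Exceptional 2 3 μ → P (dil n μ) := by
  constructor
  · intro h μ hμ
    have := hμ.1
    exact h _ (exc_traceOf hμ) _ (at_traceOf ⟨hμ.2.2.1, hμ.2.2.2.1⟩ h1 h2)
  · intro h φ hφ ν hν
    obtain ⟨κ, hκ, rfl⟩ := exc_meas hφ
    have := hκ.1
    rw [at_unique hν (at_traceOf ⟨hκ.2.2.1, hκ.2.2.2.1⟩ h1 h2)]
    exact h κ hκ

lemma dil_one (μ : Measure UnitAddCircle) : dil 1 μ = μ := by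
  unfold dil
  simp

lemma dil_nat (m : ℕ) (μ : Measure UnitAddCircle) : dil m μ = μ.map (mul m) := by
  have e : (fun x : UnitAddCircle => (m : ℤ) • x) = mul m := funext fun x => natCast_zsmul _ _
  unfold dil
  rw [e]

lemma exc_neg {p q : ℕ} {κ : Measure UnitAddCircle} (h : Exceptional p q κ) :
    Exceptional p q (dil (-1) κ) := by
  have h1 := h.1
  have h2 : NullSingletonClass κ := ⟨h.2.1⟩
  refine ⟨inferInstance, fun x => (noAtoms_dil (-1) (by norm_num) κ).measure_singleton x,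
    inv_dil p (-1) κ h.2.2.1, inv_dil q (-1) κ h.2.2.2.1, fun E hE hp hq => ?_, fun hv => ?_⟩
  · unfold dil
    rw [Measure.map_apply (Pool.Agent.U798.FA.meas_zsmul _) hE]
    have key : ∀ m : ℕ, (fun x : UnitAddCircle => m • x) ⁻¹' E = E →
        (fun x : UnitAddCircle => m • x) ⁻¹' ((fun x : UnitAddCircle => (-1 : ℤ) • x) ⁻¹' E) =
          (fun x : UnitAddCircle => (-1 : ℤ) • x) ⁻¹' E := by
      intro m hm
      ext x
      have h3 : (-1 : ℤ) • x ∈ (fun x : UnitAddCircle => m • x) ⁻¹' E ↔ (-1 : ℤ) • x ∈ E := by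
        rw [hm]
      have h4 : m • ((-1 : ℤ) • x) = (-1 : ℤ) • (m • x) := smul_comm _ _ _
      change (-1 : ℤ) • (m • x) ∈ E ↔ (-1 : ℤ) • x ∈ E
      rw [← h4]
      exact h3
    exact h.2.2.2.2.1 _ (Pool.Agent.U798.FA.meas_zsmul _ hE) (key p hp) (key q hq)
  · apply h.2.2.2.2.2
    have h3 : dil (-1) (dil (-1) κ) = volume := by rw [hv, dil_vol _ (by norm_num)]
    rw [dil_dil] at h3
    norm_num at h3
    rwa [dil_one] at h3

/-- Every exceptional measure is the dilate of an exceptional measure. -/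
theorem exc_lift {n : ℤ} (hn : n ≠ 0) {κ : Measure UnitAddCircle} (h : Exceptional 2 3 κ) :
    ∃ μ : Measure UnitAddCircle, Exceptional 2 3 μ ∧ dil n μ = κ := by
  obtain ⟨m, rfl | rfl⟩ := n.eq_nat_or_neg
  · have hm : 1 ≤ m := Nat.one_le_iff_ne_zero.2 (by simpa using hn)
    obtain ⟨μ, h1, h2⟩ := exists_exceptional_lift hm h
    exact ⟨μ, h1, by rw [dil_nat, h2]⟩
  · have hm : 1 ≤ m := Nat.one_le_iff_ne_zero.2 (by simpa using hn)
    obtain ⟨μ, h1, h2⟩ := exists_exceptional_lift hm (exc_neg h)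
    refine ⟨μ, h1, ?_⟩
    have e : (-(m : ℤ)) = (-1) * m := by ring
    rw [e, ← dil_dil, dil_nat, h2, dil_dil]
    norm_num
    exact dil_one κ

theorem exc_dil {n : ℤ} (hn : n ≠ 0) {κ : Measure UnitAddCircle} (h : Exceptional 2 3 κ) :
    Exceptional 2 3 (dil n κ) := by
  obtain ⟨m, rfl | rfl⟩ := n.eq_nat_or_neg
  · have hm : 1 ≤ m := Nat.one_le_iff_ne_zero.2 (by simpa using hn)
    rw [dil_nat]
    exact exceptional_map le_rfl hm h
  · have hm : 1 ≤ m := Nat.one_le_iff_ne_zero.2 (by simpa using hn)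
    have e : (-(m : ℤ)) = (-1) * m := by ring
    rw [e, ← dil_dil, dil_nat]
    exact exc_neg (exceptional_map le_rfl hm h)

theorem exc_shift (P : Measure UnitAddCircle → Prop) {n : ℤ} (hn : n ≠ 0) :
    (∀ μ : Measure UnitAddCircle, Exceptional 2 3 μ → P (dil n μ)) ↔
      ∀ μ : Measure UnitAddCircle, Exceptional 2 3 μ → P μ := by
  constructor
  · intro h κ hκ
    obtain ⟨μ, h1, rfl⟩ := exc_lift hn hκ
    exact h μ h1
  · intro h μ hμ
    exact h _ (exc_dil hn hμ)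

/-- Reduction to ergodic measures for sets. -/
theorem erg_set {A : Set UnitAddCircle} (hA : MeasurableSet A) {C : ℝ}
    (hv : (volume : Measure UnitAddCircle).real A = C)
    (h : ∀ κ : Measure UnitAddCircle, Exceptional 2 3 κ → κ.real A = C)
    {μ : Measure UnitAddCircle} (hμ : Joint 2 3 μ) : μ.real A = C := by
  have hp := hμ.1
  have key : ∀ ν : Measure UnitAddCircle, ∫ x, A.indicator (fun _ => (1 : ℝ)) x ∂ν = ν.real A := by
    intro ν
    rw [integral_indicator hA, setIntegral_const, smul_eq_mul, mul_one]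
  rw [← key]
  refine erg (p := 2) (q := 3) (B := 1) le_rfl (measurable_const.indicator hA) (fun x => ?_)
    (by rw [key, hv]) (fun κ hκ => by rw [key, h κ hκ])
    (fun x => hμ.2.1.measure_singleton x) hμ.2.2.1 hμ.2.2.2
  by_cases hx : x ∈ A
  · rw [indicator_of_mem hx]; norm_num
  · rw [indicator_of_notMem hx]; norm_num

lemma exists_pos {g : G} (hg : Trans g) (hg1 : g ≠ 1) :
    ∃ (n : ℤ) (k : ℕ), n ≠ 0 ∧ sl g = 1 ∧ of g = n / 6 ^ k := by
  have h1 := (trans_iff g).1 hg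
  obtain ⟨n, k, hr⟩ := of_six g
  refine ⟨n, k, ?_, h1, hr⟩
  rintro rfl
  apply hg1
  exact ext' (by rw [h1, sl_one]) (by rw [hr, of_one]; simp)

end Pool.Agent.U785.TP
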