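import Pool.Agent.U785.TP.C
import Pool.Agent.U798.OP.H

/-!
One spectral projection decides.
-/

set_option autoImplicit false

open MeasureTheory Filter Topology Set

namespace Pool.Agent.U785.TP

open Pool.Agent.U106.FC Pool.Agent.U106.TR
open Pool.Agent.U798.FA (Joint arc dil Sym dil_dil dil_vol vol_arc meas_arc dil_fourier inv_dil
  joint_dil noAtoms_dil)

lemma q1_joint : (∀ φ ∈ Set.extremePoints ℝ Traces, φ = reg ∨ FinDim φ) ↔
    ∀ μ : Measure UnitAddCircle, Joint 2 3 μ → μ = volume := by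
  rw [q1_iff]
  constructor
  · intro h μ hμ
    obtain ⟨h1, h2, h3⟩ := (joint_iff μ).1 hμ
    exact h μ h1 h2 h3
  · intro h μ h1 h2 h3
    exact h μ ((joint_iff μ).2 ⟨h1, h2, h3⟩)

theorem arcs {g : G} (hg : Trans g) (hg1 : g ≠ 1) (α β : ℝ)
    (h0 : 0 ≤ α) (h1 : α < β) (h2 : β ≤ 1) (e1 : ¬ (α = 0 ∧ β = 1)) (e2 : ¬ (α = 0 ∧ β = 1 / 2))
    (e3 : ¬ (α = 1 / 2 ∧ β = 1)) :
    List.TFAE [∀ φ ∈ Set.extremePoints ℝ Traces, φ = reg ∨ FinDim φ,
      ∀ φ, Exc φ → ∀ μ, SpectralAt φ g μ → μ.real (arc α β) = β - α,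
      ∀ φ ∈ Traces, MeanZero φ → ∀ μ, SpectralAt φ g μ → μ.real (arc α β) = β - α] := by
  obtain ⟨n, k, hn, hs, ho⟩ := exists_pos hg hg1
  have hea := Pool.Agent.U798.OP.every_arc Nat.prime_two Nat.prime_three (by norm_num) α β h0 h1 h2
    e1 e2 e3
  rw [exc_at (fun μ => μ.real (arc α β) = β - α) hs ho,
    mean_at (fun μ => μ.real (arc α β) = β - α) hs ho,
    exc_shift (fun μ => μ.real (arc α β) = β - α) hn, q1_joint]
  tfae_have 1 → 3 := fun h μ hμ => hea.2 h _ (joint_dil n hn hμ)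
  tfae_have 3 → 2 := by
    intro h κ hκ
    obtain ⟨μ, h3, rfl⟩ := exc_lift hn hκ
    exact h μ (exc_joint h3)
  tfae_have 2 → 1 := by
    intro h
    exact hea.1 fun μ hμ => erg_set (meas_arc α β h0 h2) (vol_arc α β h0 h1.le h2) h hμ
  tfae_finish

theorem halves {g : G} (hg : Trans g) (hg1 : g ≠ 1) :
    List.TFAE [∀ φ ∈ Traces, MeanZero φ → ∀ h : G, (φ h).im = 0,
      ∀ φ, Exc φ → ∀ h : G, (φ h).im = 0,
      ∀ φ, Exc φ → ∀ μ, SpectralAt φ g μ → μ.real (arc 0 (1 / 2)) = 1 / 2,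
      ∀ φ ∈ Traces, MeanZero φ → ∀ μ, SpectralAt φ g μ → μ.real (arc 0 (1 / 2)) = 1 / 2] := by
  obtain ⟨n, k, hn, hs, ho⟩ := exists_pos hg hg1
  have hha := Pool.Agent.U798.FA.half_arc 2 3
  have hreal : (∀ φ ∈ Traces, MeanZero φ → ∀ h : G, (φ h).im = 0) ↔
      ∀ μ : Measure UnitAddCircle, Joint 2 3 μ → Sym μ := by
    have key := mean_iff (fun φ _ => ∀ h : G, (φ h).im = 0)
    constructor
    · intro h μ hμ
      obtain ⟨m1, m2, m3⟩ := (joint_iff μ).1 hμ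
      exact (real_iff m3).1 (key.1 (fun φ h3 h4 _ _ => h φ h3 h4) μ m1 m2 m3)
    · intro h φ hφ hm
      obtain ⟨μ, hμ, -, -⟩ := exists_spectral hφ
      exact key.2 (fun μ m1 m2 m3 => (real_iff m3).2 (h μ ((joint_iff μ).2 ⟨m1, m2, m3⟩)))
        φ hφ hm μ hμ
  have hexc : (∀ φ, Exc φ → ∀ h : G, (φ h).im = 0) ↔
      ∀ μ : Measure UnitAddCircle, Exceptional 2 3 μ → Sym μ := by
    constructor
    · intro h μ hμ
      have := hμ.1
      exact (real_iff ⟨hμ.2.2.1, hμ.2.2.2.1⟩).1 (h _ (exc_traceOf hμ))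
    · intro h φ hφ
      obtain ⟨κ, hκ, rfl⟩ := exc_meas hφ
      have := hκ.1
      exact (real_iff ⟨hκ.2.2.1, hκ.2.2.2.1⟩).2 (h κ hκ)
  rw [exc_at (fun μ => μ.real (arc 0 (1 / 2)) = 1 / 2) hs ho,
    mean_at (fun μ => μ.real (arc 0 (1 / 2)) = 1 / 2) hs ho,
    exc_shift (fun μ => μ.real (arc 0 (1 / 2)) = 1 / 2) hn, hreal, hexc]
  tfae_have 1 → 2 := fun h μ hμ => h μ (exc_joint hμ)
  tfae_have 2 → 3 := by
    intro h μ hμ
    have h1 := hμ.1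
    have h2 : NullSingletonClass μ := ⟨hμ.2.1⟩
    have h3 := (Pool.Agent.U798.FA.sym_iff μ).1 (h μ hμ) 1 le_rfl
    rwa [Nat.cast_one, dil_one] at h3
  tfae_have 3 → 1 := by
    intro h
    refine hha.1 fun μ hμ => erg_set (meas_arc 0 (1 / 2) le_rfl (by norm_num)) ?_ h hμ
    rw [vol_arc 0 (1 / 2) le_rfl (by norm_num) (by norm_num)]
    norm_num
  tfae_have 1 → 4 := fun h μ hμ => hha.2 h _ (joint_dil n hn hμ)
  tfae_have 4 → 3 := by
    intro h κ hκ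
    obtain ⟨μ, h3, rfl⟩ := exc_lift hn hκ
    exact h μ (exc_joint h3)
  tfae_finish

end Pool.Agent.U785.TP
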