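import Pool.Agent.U785.TP.C
import Pool.Agent.U125.PS.Final

/-!
Spectral projections of the translations on subgroups of the circle.
-/

set_option autoImplicit false

open MeasureTheory Filter Topology Set
open scoped ENNReal

namespace Pool.Agent.U785.TP

open Pool.Agent.U106.FC Pool.Agent.U106.TR
open Pool.Agent.U798.FA (Joint arc dil Sym dil_dil dil_vol vol_arc meas_arc dil_fourier inv_dil
  joint_dil noAtoms_dil meas_zsmul)

/-- Exceptional measures are singular to Lebesgue measure. -/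
theorem exc_singular {μ : Measure UnitAddCircle} (h : Exceptional 2 3 μ) :
    μ ⟂ₘ (volume : Measure UnitAddCircle) := by
  have hp := h.1
  obtain ⟨c, hc⟩ := Pool.Agent.U125.PS.decomp (p := 2) le_rfl μ h.2.2.1
  by_cases h0 : c = 0
  · rw [h0, zero_smul, add_zero] at hc
    rw [hc]
    exact Measure.mutuallySingular_singularPart _ _
  · exfalso
    have hac : (volume : Measure UnitAddCircle) ≪ μ := by
      intro A hA
      rw [hc, Measure.add_apply, Measure.smul_apply, smul_eq_mul] at hA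
      have h1 := (add_eq_zero.1 hA).2
      exact (mul_eq_zero.1 h1).resolve_left h0
    have hvp : IsProbabilityMeasure (volume : Measure UnitAddCircle) :=
      ⟨UnitAddCircle.measure_univ⟩
    have hvi : Inv (volume : Measure UnitAddCircle) :=
      ⟨mp_vol (by norm_num), mp_vol (by norm_num)⟩
    exact h.2.2.2.2.2 (eq_of_le h hvi hac).symm

theorem fin_singular {ν : Measure UnitAddCircle} [IsProbabilityMeasure ν] {M : ℕ} (hM1 : 1 ≤ M)
    (hM : ∀ m : ℤ, co ν (M * m) = 1) : ν ⟂ₘ (volume : Measure UnitAddCircle) := by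
  have hp : IsProbabilityMeasure (ν.map (mul M)) :=
    Measure.isProbabilityMeasure_map (cont_mul M).measurable.aemeasurable
  have e : ν.map (mul M) = Measure.dirac 0 := by
    refine Pool.Agent.R202.ext_fourier fun n => ?_
    change co _ n = _
    rw [co_map, mul_comm, hM, integral_dirac]
    simp
  refine ⟨(mul M ⁻¹' {0})ᶜ, ((cont_mul M).measurable (measurableSet_singleton _)).compl, ?_, ?_⟩
  · rw [← preimage_compl, ← Measure.map_apply (cont_mul M).measurable
      (measurableSet_singleton _).compl, e,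
      Measure.dirac_apply' _ (measurableSet_singleton _).compl]
    simp
  · rw [compl_compl]
    have hfin : {u : UnitAddCircle | M • u = 0}.Finite := AddCircle.finite_torsion 1 (by omega)
    exact hfin.measure_zero _

/-- The spectral measure of `u`, with the values of the trace. -/
theorem exists_sp {φ : G → ℂ} (hφ : φ ∈ Traces) : ∃ μ : Measure UnitAddCircle,
    IsProbabilityMeasure μ ∧ Inv μ ∧ (∀ g, sl g = 1 → φ g = traceOf μ g) ∧
    (φ ∈ Set.extremePoints ℝ Traces → φ ≠ reg →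
      (∃ M : ℕ, 1 ≤ M ∧ ∀ n : ℤ, co μ (M * n) = 1) ∨ Exceptional 2 3 μ) := by
  obtain ⟨ν, hν, hi, ht, hv, hk, hx⟩ := exists_meas' hφ
  refine ⟨ν, hν, hi, ht, fun hext hne => ?_⟩
  by_cases hfin : FinDim φ
  · exact Or.inl (hk hfin)
  · right
    obtain ⟨κ, hκ, hφκ⟩ := exc_meas (φ := φ) ⟨hext, hne, hfin⟩
    have := hκ.1
    have hi' : Inv κ := ⟨hκ.2.2.1, hκ.2.2.2.1⟩
    have e : ν = κ := by
      refine Pool.Agent.R202.ext_fourier fun n => ?_
      obtain ⟨g, h1, h2⟩ := exists_elt n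
      have h3 := ht g h1
      rw [hφκ, co_eq hi' h1 h2, co_eq hi h1 h2] at h3
      exact h3.symm
    rw [e]
    exact hκ

lemma at_of {φ : G → ℂ} {ν : Measure UnitAddCircle} [IsProbabilityMeasure ν] (hi : Inv ν)
    (ht : ∀ g, sl g = 1 → φ g = traceOf ν g) {g : G} {n : ℤ} {k : ℕ}
    (h1 : sl g = 1) (h2 : of g = n / 6 ^ k) : SpectralAt φ g (dil n ν) :=
  ⟨inferInstance, fun m => by
    rw [(at_traceOf hi h1 h2).2 m, ht _ (trans_zpow h1 m).1]⟩

/-- The spectral measures of the translations with respect to an extreme trace other than the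
regular one are singular and invariant. -/
theorem at_singular {φ : G → ℂ} (hext : φ ∈ Set.extremePoints ℝ Traces) (hne : φ ≠ reg) {g : G}
    (hg : Trans g) (hg1 : g ≠ 1) {μ : Measure UnitAddCircle} (hμ : SpectralAt φ g μ) :
    μ ⟂ₘ (volume : Measure UnitAddCircle) ∧ Inv μ := by
  obtain ⟨n, k, hn, hs, ho⟩ := exists_pos hg hg1
  obtain ⟨ν, hν, hi, ht, hx⟩ := exists_sp hext.1
  obtain rfl := at_unique hμ (at_of hi ht hs ho)
  refine ⟨?_, inv_dil 2 n ν hi.1, inv_dil 3 n ν hi.2⟩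
  rcases hx hext hne with ⟨M, hM1, hM⟩ | hx
  · refine fin_singular hM1 fun m => ?_
    change ∫ x, (fourier ((M : ℤ) * m) x : ℂ) ∂(dil n ν) = 1
    rw [dil_fourier]
    have e : n * ((M : ℤ) * m) = M * (n * m) := by ring
    rw [e]
    exact hM _
  · exact exc_singular (exc_dil hn hx)

/-- **Countably many traces.** -/
theorem spaces (φ : ℕ → G → ℂ) (hφ : ∀ j, φ j ∈ Traces) {C : Set ℝ} (hC : C.Countable) :
    ∃ V : Submodule ℚ ℝ, (1 : ℝ) ∈ V ∧ IsSigmaCompact (V : Set ℝ) ∧ dimH (V : Set ℝ) = 0 ∧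
      (∀ x ∈ C, x ∈ V → ∃ r : ℚ, x = r) ∧
      ∀ j, ∃ c : ℝ≥0∞, (φ j ∈ Set.extremePoints ℝ Traces → φ j ≠ reg → c = 0) ∧
        ∀ g : G, Trans g → g ≠ 1 → ∀ μ, SpectralAt (φ j) g μ →
          ∀ B : Set UnitAddCircle, MeasurableSet B →
            (∀ r ∈ V, ((r : ℝ) : UnitAddCircle) ∉ B) → μ B = c * volume B := by
  choose ν hν hi ht hx using fun j => exists_sp (hφ j)
  obtain ⟨V, h1, h2, h3, h4, h5⟩ := Pool.Agent.U125.PS.family (p := 2) (q := 3) Nat.prime_two
    (by norm_num) (by norm_num) ν hν hi hC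
  refine ⟨V, h1, h2, h3, h4, fun j => ?_⟩
  obtain ⟨c, hc, hB⟩ := h5 j
  have := hν j
  refine ⟨c, fun hext hne => hc ?_, fun g hg hg1 μ hμ B hBm hBV => ?_⟩
  · rcases hx j hext hne with ⟨M, hM1, hM⟩ | hx
    · exact fin_singular hM1 hM
    · exact exc_singular hx
  · obtain ⟨n, k, hn, hs, ho⟩ := exists_pos hg hg1
    obtain rfl := at_unique hμ (at_of (hi j) (ht j) hs ho)
    have e1 : (dil n (ν j)) B = ν j ((fun x : UnitAddCircle => n • x) ⁻¹' B) := by
      unfold dil
      rw [Measure.map_apply (meas_zsmul n) hBm]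
    have e2 : (volume : Measure UnitAddCircle) ((fun x : UnitAddCircle => n • x) ⁻¹' B) =
        volume B := by
      have h6 : (dil n (volume : Measure UnitAddCircle)) B =
          volume ((fun x : UnitAddCircle => n • x) ⁻¹' B) := by
        unfold dil
        rw [Measure.map_apply (meas_zsmul n) hBm]
      rw [← h6, dil_vol n hn]
    rw [e1, hB _ (meas_zsmul n hBm) (fun r hr hrB => ?_), e2]
    apply hBV ((n : ℚ) • r) (V.smul_mem _ hr)
    have e3 : (((n : ℚ) • r : ℝ) : UnitAddCircle) = n • ((r : ℝ) : UnitAddCircle) := by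
      rw [Rat.smul_def, ← AddCircle.coe_zsmul, zsmul_eq_mul]
      push_cast
      rfl
    rw [e3]
    exact hrB

/-- **Joinings.** -/
theorem joined {k : ℕ} (φ : Fin k → G → ℂ) (hext : ∀ i, φ i ∈ Set.extremePoints ℝ Traces)
    (hne : ∀ i, φ i ≠ reg) (g : Fin k → G) (hg : ∀ i, Trans (g i)) (hg1 : ∀ i, g i ≠ 1)
    (a : Fin k → ℤ) {ε : ℝ≥0∞} (hε : 0 < ε) :
    ∃ F : Set UnitAddCircle, F.Finite ∧ (∀ t ∈ F, IsOfFinAddOrder t) ∧
      ∀ (Ω : Type) [MeasurableSpace Ω] (P : Measure Ω) (X : Fin k → Ω → UnitAddCircle),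
        (∀ i, Measurable (X i)) → (∀ i, SpectralAt (φ i) (g i) (P.map (X i))) →
        ∀ t ∉ F, P {ω | ∑ i, a i • X i ω = t} < ε := by
  choose μ hμ _ using fun i => exists_at (hext i).1 (hg i)
  have hs := fun i => at_singular (hext i) (hne i) (hg i) (hg1 i) (hμ i)
  obtain ⟨F, h1, h2, h3⟩ := Pool.Agent.U125.PS.coupled (p := 2) (q := 3) Nat.prime_two
    (by norm_num) (by norm_num) μ (fun i => (hμ i).1) (fun i => (hs i).2) (fun i => (hs i).1) a hε
  exact ⟨F, h1, h2, fun Ω _ P X hX hXs => h3 Ω P X hX fun i => at_unique (hXs i) (hμ i)⟩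

/-- **Subgroups.** -/
theorem subgroups {g : G} (hg : Trans g) (hg1 : g ≠ 1) :
    List.TFAE [∀ φ ∈ Set.extremePoints ℝ Traces, φ = reg ∨ FinDim φ,
      ∀ φ, Exc φ → ∀ μ, SpectralAt φ g μ → ∀ H : AddSubgroup UnitAddCircle,
        MeasurableSet (H : Set UnitAddCircle) → H ≠ ⊤ → μ (H : Set UnitAddCircle) = 0,
      ∀ φ ∈ Traces, MeanZero φ → ∀ μ, SpectralAt φ g μ → ∀ H : AddSubgroup UnitAddCircle,
        MeasurableSet (H : Set UnitAddCircle) → H ≠ ⊤ → μ (H : Set UnitAddCircle) = 0] := by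
  obtain ⟨n, k, hn, hs, ho⟩ := exists_pos hg hg1
  have heq := Pool.Agent.U125.PS.equiv (p := 2) (q := 3) Nat.prime_two
    (by norm_num) (by norm_num)
  rw [exc_at (fun μ => ∀ H : AddSubgroup UnitAddCircle,
      MeasurableSet (H : Set UnitAddCircle) → H ≠ ⊤ → μ (H : Set UnitAddCircle) = 0) hs ho,
    mean_at (fun μ => ∀ H : AddSubgroup UnitAddCircle,
      MeasurableSet (H : Set UnitAddCircle) → H ≠ ⊤ → μ (H : Set UnitAddCircle) = 0) hs ho,
    exc_shift (fun μ => ∀ H : AddSubgroup UnitAddCircle,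
      MeasurableSet (H : Set UnitAddCircle) → H ≠ ⊤ → μ (H : Set UnitAddCircle) = 0) hn, q1_iff]
  tfae_have 1 → 3 := by
    intro h μ hμ H hH hne
    obtain ⟨m1, m2, m3⟩ := (joint_iff _).1 (joint_dil n hn hμ)
    rw [h _ m1 m2 m3]
    exact Pool.Agent.U125.PS.vol_subgroup H hH hne
  tfae_have 3 → 2 := by
    intro h κ hκ
    obtain ⟨μ, h3, rfl⟩ := exc_lift hn hκ
    exact h μ (exc_joint h3)
  tfae_have 2 → 1 := by
    intro h μ m1 m2 m3
    refine heq.2 (fun μ m1 m4 m5 m2 H hH hne => ?_) μ m1 m3.1 m3.2 m2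
    have h6 := erg_set (C := 0) hH
      (by rw [measureReal_def, Pool.Agent.U125.PS.vol_subgroup H hH hne, ENNReal.toReal_zero])
      (fun κ hκ => by rw [measureReal_def, h κ hκ H hH hne, ENNReal.toReal_zero])
      ((joint_iff μ).2 ⟨m1, m2, m4, m5⟩)
    rw [measureReal_def, ENNReal.toReal_eq_zero_iff] at h6
    exact h6.resolve_right (measure_ne_top _ _)
  tfae_finish

end Pool.Agent.U785.TP
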